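import Mathlib
import Pool.Agent.Y617.IS.Main

/-!
Equations in two variables over any class of representable implication semigroups that contains the
algebra of all binary relations on a countably infinite set: undecidable with a fixed right side.

The definitions `Term`, `Term.eval`, `Term.code`, `relImp`, `relComp`, `TransRel` and
`Representable` are those of the file `EquationalTheory` of this problem.
-/

set_option autoImplicit false

universe u

namespace Pool.Agent.Results.MP_86fe4b_lc.TwoVariables

open Pool.Agent.Results.MP_86fe4b_lc.EquationalTheory

/-- The term uses no variables besides the two variables number `0` and `1`. -/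
def Binary : Term → Prop
  | .var i => i < 2
  | .imp s t => Binary s ∧ Binary t
  | .comp s t => Binary s ∧ Binary t

/-- The equation `s ≈ t` is valid in all the algebras of the class `K` of algebras with two binary
operations. -/
def ValidIn (K : ∀ S : Type u, (S → S → S) → (S → S → S) → Prop) (s t : Term) : Prop :=
  ∀ (S : Type u) (imp comp : S → S → S), K S imp comp →
    ∀ v : ℕ → S, s.eval imp comp v = t.eval imp comp v

/-- `K` is a class of representable implication semigroups that contains the algebra of all binary
relations on a countably infinite set, with relative implication and composition. -/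
def Between (K : ∀ S : Type u, (S → S → S) → (S → S → S) → Prop) : Prop :=
  (∀ (S : Type u) (imp comp : S → S → S), K S imp comp → Representable imp comp) ∧
    K (Set (ULift.{u} ℕ × ULift.{u} ℕ)) (relImp Set.univ) relComp

theorem between_all : Between.{u} (fun _ imp comp => Representable imp comp) :=
  ⟨fun _ _ _ h => h, ULift.{u} ℕ, Set.univ, id, fun _ _ _ _ _ => trivial, Function.injective_id,
    fun _ => Set.subset_univ _, fun _ _ => rfl, fun _ _ => rfl⟩

theorem binary_iff (t : Term) : Binary t ↔ Pool.Agent.Y617.IS.Binary t := by
  induction t with
  | var i => rfl
  | imp s t ihs iht => simp only [Binary, Pool.Agent.Y617.IS.Binary, ihs, iht]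
  | comp s t ihs iht => simp only [Binary, Pool.Agent.Y617.IS.Binary, ihs, iht]

/-- There is one term `t` in two variables such that every recursively enumerable set reduces to the
equations `s ≈ t` with `s` a term in the same two variables, for all the classes of representable
implication semigroups containing the algebra of all binary relations on a countably infinite set at
once. So no algorithm decides, for `s` in two variables, whether `s ≈ t` is valid in the class. One
of the classes is that of all representable implication semigroups. -/
theorem result : ∃ t : Term, Binary t ∧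
    (∀ P : ℕ → Prop, REPred P → ∃ s : ℕ → Term,
      Computable (fun n => (s n).code) ∧ (∀ n, Binary (s n)) ∧
        ∀ K, Between.{u} K → ∀ n, P n ↔ ValidIn.{u} K (s n) t) ∧
    (∀ K, Between.{u} K → ¬ ∃ f : List ℕ → Bool, Computable f ∧
      ∀ s : Term, Binary s → (f s.code = true ↔ ValidIn.{u} K s t)) ∧
    Between.{u} (fun _ imp comp => Representable imp comp) := by
  obtain ⟨t, ht, hmain⟩ := Pool.Agent.Y617.IS.main.{u}
  have key : ∀ P : ℕ → Prop, REPred P → ∃ s : ℕ → Term,
      Computable (fun n => (s n).code) ∧ (∀ n, Binary (s n)) ∧
        ∀ K, Between.{u} K → ∀ n, P n ↔ ValidIn.{u} K (s n) t := by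
    intro P hP
    obtain ⟨s, hs, hs2, h⟩ := hmain P hP
    refine ⟨s, hs, fun n => (binary_iff _).2 (hs2 n), fun K hK n => ?_⟩
    constructor
    · intro hn S imp comp hS v
      exact (h n).1 hn S imp comp (hK.1 S imp comp hS) v
    · intro hv
      exact (h n).2 (fun v => hv _ _ _ hK.2 v)
  refine ⟨t, (binary_iff _).2 ht, key, ?_, between_all⟩
  rintro K hK ⟨f, hf, hfv⟩
  obtain ⟨s, hs, hs2, h⟩ := key _ Pool.Agent.Helper147.Univ.u_partrec.dom_re
  apply Pool.Agent.Helper147.Univ.u_not_computable
  have h1 : Computable (fun n => f (s n).code) := hf.comp hs
  have h2 : (fun n => (Pool.Agent.Helper147.Univ.u n).Dom) =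
      (fun n => f (s n).code = true) := by
    funext n
    exact propext ((h K hK n).trans (hfv (s n) (hs2 n)).symm)
  rw [h2]
  exact ⟨inferInstance, by simpa using h1⟩

end Pool.Agent.Results.MP_86fe4b_lc.TwoVariables
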